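import Pool.Agent.Lib.MP_cf29c0_an.IB.Main

/-!
Negative answer to Q1 on every infinite-dimensional Banach space, by an ordinary differential
equation with locally Lipschitz right side and scalar bounded measurable inputs. The system has a
Lipschitz ISS Lyapunov function in implication form, and a coercive function that satisfies the dissipation
inequality with a decay rate of class K, but no continuous nonnegative function, coercive or not,
satisfies the dissipation inequality with a decay rate of class K-infinity.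
-/

open scoped NNReal

namespace Pool.Agent.Results.MP_cf29c0_an.EveryBanachODE

open Pool.Agent.Lib.MP_cf29c0_an

theorem result (X : Type) [NormedAddCommGroup X] [NormedSpace ℝ X] [CompleteSpace X]
    (hX : ¬ FiniteDimensional ℝ X) :
    ∃ (f : X × ℝ → X) (I : Type) (_ : NormedAddCommGroup I) (_ : NormedSpace ℝ I)
      (S : ControlSystem X ℝ I),
      LocallyLipschitz f ∧ f (0, 0) = 0 ∧
      (∀ g : ℝ≥0 → ℝ, (∃ u : I, S.fn u = g) ↔
        Measurable g ∧ BddAbove (Set.range fun s : ℝ≥0 => |g s|)) ∧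
      (∀ u : I, IsLUB (Set.range fun s : ℝ≥0 => |S.fn u s|) ‖u‖) ∧
      (∀ (t : ℝ≥0) (x : X) (u : I),
        IntervalIntegrable (fun s : ℝ => f (S.φ (Real.toNNReal s) x u, S.fn u (Real.toNNReal s)))
          MeasureTheory.volume 0 (t : ℝ) ∧
        S.φ t x u = x + ∫ s in (0 : ℝ)..(t : ℝ),
          f (S.φ (Real.toNNReal s) x u, S.fn u (Real.toNNReal s))) ∧
      (∃ V : X → ℝ≥0, LipschitzWith 2 V ∧ S.IsImplicationLF V) ∧
      (∃ V : X → ℝ≥0, Continuous V ∧ ∃ ψ₁ ψ₂ α σ : ℝ≥0 → ℝ≥0,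
        IsKInf ψ₁ ∧ IsKInf ψ₂ ∧ IsK α ∧ IsK σ ∧ (∀ x, ψ₁ ‖x‖₊ ≤ V x ∧ V x ≤ ψ₂ ‖x‖₊) ∧
        ∀ (x : X) (u : I), S.dini V u x ≤ ((-(α ‖x‖₊ : ℝ) + (σ ‖u‖₊ : ℝ) : ℝ) : EReal)) ∧
      (∀ (W : X → ℝ≥0) (α σ : ℝ≥0 → ℝ≥0), Continuous W → IsKInf α → IsK σ →
        ¬ ∀ (x : X) (u : I), S.dini W u x ≤ ((-(α ‖x‖₊ : ℝ) + (σ ‖u‖₊ : ℝ) : ℝ) : EReal)) ∧
      ∀ W : X → ℝ≥0, ¬ S.IsDissipativeLF W := by
  obtain ⟨D⟩ := IB.exists_dat hX
  exact ⟨D.field, IB.Inp, inferInstance, inferInstance, D.sys, D.field_lip, D.field_zero,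
    IB.mem_iff, IB.isLUB_fnI, D.sys_ode, D.implication, D.integral, D.no_dissipation,
    fun W ⟨hW, _, _, α, σ, _, _, hα, hσ, _, hd⟩ => D.no_dissipation W α σ hW hα hσ hd⟩

end Pool.Agent.Results.MP_cf29c0_an.EveryBanachODE
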