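import Pool.Agent.Lib.MP_cf29c0_an.Main

/-!
Negative answer to Q1, in a strong form. On the Banach space `c_0` of real null sequences, the
linear diagonal system `x_n' = -(n+1) x_n + (n+1) u_n` (inputs with values in `c_0`, supremum
norm in time, all bounded continuous inputs admitted) has the norm as an ISS Lyapunov function
in implication form, and has no ISS Lyapunov function in dissipative form at all.
-/

open scoped NNReal

namespace Pool.Agent.Results.MP_cf29c0_an.NoDissipative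

open Pool.Agent.Lib.MP_cf29c0_an

theorem result :
    ¬ FiniteDimensional ℝ (ZeroAtInftyContinuousMap ℕ ℝ) ∧
    ∃ (I : Type) (_ : NormedAddCommGroup I) (_ : NormedSpace ℝ I)
      (S : ControlSystem (ZeroAtInftyContinuousMap ℕ ℝ) (ZeroAtInftyContinuousMap ℕ ℝ) I),
      (∀ u : I, IsLUB (Set.range fun s : ℝ≥0 => ‖S.fn u s‖) ‖u‖) ∧
      (∀ (u : I) (n : ℕ), Measurable fun s : ℝ≥0 => S.fn u s n) ∧
      (∀ f : ℝ≥0 → ZeroAtInftyContinuousMap ℕ ℝ, Continuous f →
        BddAbove (Set.range fun s : ℝ≥0 => ‖f s‖) → ∃ u : I, S.fn u = f) ∧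
      (∀ (t : ℝ≥0) (x : ZeroAtInftyContinuousMap ℕ ℝ) (u : I) (n : ℕ),
        S.φ t x u n = Real.exp (-(((n : ℝ) + 1) * (t : ℝ))) * x n +
          ∫ s in (0 : ℝ)..(t : ℝ), ((n : ℝ) + 1) * Real.exp (-(((n : ℝ) + 1) * ((t : ℝ) - s))) *
            S.fn u (Real.toNNReal s) n) ∧
      S.IsImplicationLF (fun x => ‖x‖₊) ∧
      ∀ W : ZeroAtInftyContinuousMap ℕ ℝ → ℝ≥0, ¬ S.IsDissipativeLF W :=
  ⟨not_finiteDimensional, Inp, inferInstance, inferInstance, sys, isLUB_norm_fnI, fn_measurable,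
    mem_of_continuous, phi_formula, norm_isImplicationLF, not_isDissipativeLF⟩

end Pool.Agent.Results.MP_cf29c0_an.NoDissipative
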